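import Pool.Agent.Q283.EN.Stm
import Pool.Agent.Q14.LK.Bas
import Pool.Agent.Q162.LK.HS2

/-!
# Project EN of helper283, job EEX: the maximal isotropic group of local classes
-/

set_option autoImplicit false

namespace Pool.Agent.Q38.EN

open NumberField IsDedekindDomain Finset
open Pool.Agent.Q7.LK Pool.Agent.Q283.EN Pool.Agent.Q14.LK
open Pool.Agent.Q283.LQ (Sm nS)

section

variable {p : ℕ} [hp : Fact p.Prime] {F : Type} [Field F] [NumberField F]

theorem lpw_prod (hB : S_BAS) {v : HeightOneSpectrum (𝓞 F)} {ι : Type} [DecidableEq ι] (s : Finset ι) (e : ι → F)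
    (h : ∀ i ∈ s, Lpw p v (e i)) : Lpw p v (∏ i ∈ s, e i) := by
  induction s using Finset.induction_on with
  | empty =>
    rw [prod_empty]
    exact lpw_one hB v
  | insert i s hi ih =>
    rw [prod_insert hi]
    exact lpw_mul hB (h i (mem_insert_self i s)) (ih fun j hj => h j (mem_insert_of_mem hj))

/-- approximation at all places of a finite set, up to local powers -/
theorem apx_all (hB : S_BAS) (p : ℕ) [hp : Fact p.Prime] (R : Finset (HeightOneSpectrum (𝓞 F)))
    (b : HeightOneSpectrum (𝓞 F) → F) (hb : ∀ v ∈ R, b v ≠ 0) :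
    ∃ e : F, e ≠ 0 ∧ ∀ v ∈ R, Lpw p v (e / b v) := by
  classical
  have h1 : ∀ v : HeightOneSpectrum (𝓞 F), ∃ e : F, v ∈ R → e ≠ 0 ∧ Lpw p v (e / b v) ∧
      ∀ w ∈ R, w ≠ v → Lpw p w e := by
    intro v
    by_cases hv : v ∈ R
    · obtain ⟨e, he⟩ := Pool.Agent.Q162.LK.apxL hB p R v (hb v hv)
      exact ⟨e, fun _ => he⟩
    · exact ⟨1, fun h => absurd h hv⟩
  choose e he using h1
  refine ⟨∏ v ∈ R, e v, prod_ne_zero_iff.2 fun v hv => (he v hv).1, ?_⟩
  intro v hv
  rw [← mul_prod_erase R e hv]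
  have h2 : e v * (∏ w ∈ R.erase v, e w) / b v = (e v / b v) * ∏ w ∈ R.erase v, e w := by ring
  rw [h2]
  refine lpw_mul hB (he v hv).2.1 (lpw_prod hB _ _ fun w hw => ?_)
  exact (he w (mem_of_mem_erase hw)).2.2 v hv (ne_of_mem_erase hw).symm

/-- the degree of `F` -/
theorem deg_F {ζ : F} (hζ : IsPrimitiveRoot ζ p) (hHi : Hi p F) :
    Module.finrank ℚ F = 2 * InfinitePlace.nrComplexPlaces F := by
  have h5 := InfinitePlace.card_add_two_mul_card_eq_rank F
  have h8 : InfinitePlace.nrRealPlaces F = 0 := by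
    rcases eq_or_ne p 2 with h2 | h2
    · obtain ⟨i, hi⟩ := hHi h2
      have hord : orderOf i = 2 ^ (1 + 1) := by
        haveI : Fact (Nat.Prime 2) := ⟨Nat.prime_two⟩
        apply orderOf_eq_prime_pow
        · rw [pow_one, hi]
          intro h
          have h3 : (2 : F) = 0 := by linear_combination -h
          exact two_ne_zero h3
        · rw [show (2 : ℕ) ^ (1 + 1) = 2 * 2 by norm_num, pow_mul, hi]
          ring
      have hpr : IsPrimitiveRoot i 4 := by
        have := IsPrimitiveRoot.orderOf i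
        rwa [hord] at this
      exact NumberField.InfinitePlace.IsPrimitiveRoot.nrRealPlaces_eq_zero_of_two_lt (by norm_num) hpr
    · have hp3 : 2 < p := lt_of_le_of_ne hp.out.two_le (Ne.symm h2)
      exact NumberField.InfinitePlace.IsPrimitiveRoot.nrRealPlaces_eq_zero_of_two_lt hp3 hζ
  omega

variable {ζ : F} {y f : ℕ} {u r : Fin f → F} {π : HeightOneSpectrum (𝓞 F) → F}
  {g : (Fin f → ZMod p) → (Fin f → ZMod p) → ZMod p}

/-- equality of classes -/
theorem cls_eq (hB : S_BAS) (B : Base p ζ y f u r π g) {a a' : F} {x x' : (Fin f → ZMod p) × (Fin f → ZMod p)}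
    (ha : a ≠ 0) (h : Nn p y (a * mon r x.1 * mon u x.2)) (h' : Nn p y (a' * mon r x'.1 * mon u x'.2))
    (hN : Nn p y (a / a')) : x = x' := by
  have ha' : a' ≠ 0 := by
    rintro rfl
    exact hN.1 (div_zero a)
  obtain ⟨z, _, hz⟩ := B.cls a ha
  have h2 : a' * mon r x'.1 * mon u x'.2 * (a / a') = a * mon r x'.1 * mon u x'.2 := by
    field_simp
  have h3 := nn_mul hB h' hN
  rw [h2] at h3
  exact (hz x h).trans (hz x' h3).symm

theorem cls_div (hB : S_BAS) (B : Base p ζ y f u r π g) {a a' : F} {x : (Fin f → ZMod p) × (Fin f → ZMod p)}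
    (ha' : a' ≠ 0) (h : Nn p y (a * mon r x.1 * mon u x.2)) (h' : Nn p y (a' * mon r x.1 * mon u x.2)) :
    Nn p y (a / a') := by
  have h1 := nn_div hB h h'
  have hr := mon_ne B.re x.1
  have hu := mon_ne B.ue x.2
  have h2 : a * mon r x.1 * mon u x.2 / (a' * mon r x.1 * mon u x.2) = a / a' := by
    field_simp
  rwa [h2] at h1

/-- the representative of a class -/
theorem cls_rep (hB : S_BAS) (B : Base p ζ y f u r π g) (x : (Fin f → ZMod p) × (Fin f → ZMod p)) :
    (mon r x.1 * mon u x.2)⁻¹ ≠ 0 ∧ Nn p y ((mon r x.1 * mon u x.2)⁻¹ * mon r x.1 * mon u x.2) := by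
  have hr := mon_ne B.re x.1
  have hu := mon_ne B.ue x.2
  refine ⟨inv_ne_zero (mul_ne_zero hr hu), ?_⟩
  have h2 : (mon r x.1 * mon u x.2)⁻¹ * mon r x.1 * mon u x.2 = 1 := by
    field_simp
  rw [h2]
  exact nn_one hB y

/-- `f` is not too large -/
theorem f_le (hB : S_BAS) (B : Base p ζ y f u r π g) (hζ : IsPrimitiveRoot ζ p) (hHi : Hi p F) (hLOC : P_LOC p F) :
    f ≤ nS F y + InfinitePlace.nrComplexPlaces F := by
  classical
  obtain ⟨-, h⟩ := hLOC y B.two
  obtain ⟨b, hb⟩ : ∃ b : (Fin f → ZMod p) × (Fin f → ZMod p) → F, b = fun x => (mon r x.1 * mon u x.2)⁻¹ := ⟨_, rfl⟩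
  have hb0 : ∀ x, b x ≠ 0 := fun x => by
    rw [hb]
    exact (cls_rep hB B x).1
  have hbN : ∀ x, Nn p y (b x * mon r x.1 * mon u x.2) := fun x => by
    rw [hb]
    exact (cls_rep hB B x).2
  have hinj : Function.Injective b := by
    intro x x' hxx
    refine cls_eq hB B (hb0 x) (hbN x) (hbN x') ?_
    rw [hxx, div_self (hb0 x')]
    exact nn_one hB y
  have h1 := h (Finset.univ.image b) (fun c hc => by
    obtain ⟨x, -, rfl⟩ := Finset.mem_image.1 hc
    exact hb0 x) (fun c hc c' hc' hne hN => by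
    obtain ⟨x, -, rfl⟩ := Finset.mem_image.1 hc
    obtain ⟨x', -, rfl⟩ := Finset.mem_image.1 hc'
    exact hne (by rw [cls_eq hB B (hb0 x) (hbN x) (hbN x') hN]))
  rw [Finset.card_image_of_injective _ hinj, Finset.card_univ, Fintype.card_prod, Fintype.card_fun, Fintype.card_fin,
    ZMod.card, ← pow_add, deg_F hζ hHi] at h1
  have h2 := (Nat.pow_le_pow_iff_right hp.out.one_lt).1 h1
  omega

/-- the group of classes -/
theorem exists_E (hB : S_BAS) (B : Base p ζ y f u r π g) {t : HeightOneSpectrum (𝓞 F) → F → F → ZMod p}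
    {A : HeightOneSpectrum (𝓞 F) → F → Prop} {c : HeightOneSpectrum (𝓞 F) → ℕ} (hL : LocX p t y A c) :
    ∃ E : Submodule (ZMod p) ((Fin f → ZMod p) × (Fin f → ZMod p)),
      ∀ (a : F) (x : (Fin f → ZMod p) × (Fin f → ZMod p)), a ≠ 0 → Nn p y (a * mon r x.1 * mon u x.2) →
      (x ∈ E ↔ ∀ v : HeightOneSpectrum (𝓞 F), Sm y v → A v a) := by
  classical
  obtain ⟨P, hP⟩ : ∃ P : (Fin f → ZMod p) × (Fin f → ZMod p) → Prop, P = fun x =>
      ∃ a : F, a ≠ 0 ∧ Nn p y (a * mon r x.1 * mon u x.2) ∧ ∀ v : HeightOneSpectrum (𝓞 F), Sm y v → A v a := ⟨_, rfl⟩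
  have hadd : ∀ x x', P x → P x' → P (x + x') := by
    rw [hP]
    rintro x x' ⟨a, ha, hN, hA⟩ ⟨a', ha', hN', hA'⟩
    refine ⟨a * a', mul_ne_zero ha ha', ?_, fun v hv => hL.mul v a a' hv (hA v hv) (hA' v hv)⟩
    obtain ⟨z, hz, h1⟩ := mon_add B.re x.1 x'.1
    obtain ⟨w, hw, h2⟩ := mon_add B.ue x.2 x'.2
    refine nn_of_mul_pp hB (mul_ne_zero hz hw) ?_
    have h3 : a * a' * mon r (x + x').1 * mon u (x + x').2 * (z * w) ^ p =
        (a * mon r x.1 * mon u x.2) * (a' * mon r x'.1 * mon u x'.2) := by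
      rw [Prod.fst_add, Prod.snd_add, mul_pow]
      calc a * a' * mon r (x.1 + x'.1) * mon u (x.2 + x'.2) * (z ^ p * w ^ p)
          = a * a' * (mon r (x.1 + x'.1) * z ^ p) * (mon u (x.2 + x'.2) * w ^ p) := by ring
        _ = a * a' * (mon r x.1 * mon r x'.1) * (mon u x.2 * mon u x'.2) := by rw [h1, h2]
        _ = _ := by ring
    rw [h3]
    exact nn_mul hB hN hN'
  have hzero : P 0 := by
    rw [hP]
    refine ⟨1, one_ne_zero, ?_, fun v hv => hL.pow v 1 hv (lpw_one hB v)⟩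
    rw [Prod.fst_zero, Prod.snd_zero, mon_zero, mon_zero, mul_one, mul_one]
    exact nn_one hB y
  let M : AddSubmonoid ((Fin f → ZMod p) × (Fin f → ZMod p)) :=
    { carrier := {x | P x}
      add_mem' := fun {x x'} hx hx' => hadd x x' hx hx'
      zero_mem' := hzero }
  let E : Submodule (ZMod p) ((Fin f → ZMod p) × (Fin f → ZMod p)) :=
    { M with
      smul_mem' := fun c x hx => by
        have h1 : c • x = c.val • x := by
          rw [← Nat.cast_smul_eq_nsmul (ZMod p), ZMod.natCast_zmod_val]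
        change c • x ∈ M
        rw [h1]
        exact M.nsmul_mem hx _ }
  refine ⟨E, ?_⟩
  intro a x ha hN
  have hmem : x ∈ E ↔ P x := Iff.rfl
  rw [hmem, hP]
  constructor
  · rintro ⟨a', ha', hN', hA'⟩ v hv
    have h1 := (cls_div hB B ha' hN hN').2 v hv
    have h2 := hL.mul v a' (a / a') hv (hA' v hv) (hL.pow v _ hv h1)
    have h3 : a' * (a / a') = a := by field_simp
    rwa [h3] at h2
  · intro h
    exact ⟨a, ha, hN, h⟩

/-- **JOB EEX.** -/
theorem eex (hB : S_BAS) : S_EEX := by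
  classical
  intro p _ F _ _ ζ hζ hHi hLOC t y f u r π g B hFRM A c hL hc
  obtain ⟨hfin, -⟩ := hLOC y B.two
  have hf := f_le hB B hζ hHi hLOC
  obtain ⟨E, hE⟩ := exists_E hB B hL
  refine ⟨E, ⟨?_, ?_⟩, hE⟩
  · intro x hx x' hx'
    obtain ⟨ha, hN⟩ := cls_rep hB B x
    obtain ⟨ha', hN'⟩ := cls_rep hB B x'
    rw [← hFRM _ _ x x' ha ha' hN hN']
    exact finsum_eq_zero_of_forall_eq_zero fun v =>
      hL.iso v.1 _ _ v.2 ((hE _ x ha hN).1 hx v.1 v.2) ((hE _ x' ha' hN').1 hx' v.1 v.2)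
  · haveI : Fintype {v : HeightOneSpectrum (𝓞 F) // Sm y v} := hfin.fintype
    choose Bf hBc hBA hBd using fun v : {v : HeightOneSpectrum (𝓞 F) // Sm y v} => hL.num v.1 v.2
    obtain ⟨ext, hext⟩ : ∃ ext : ({v : HeightOneSpectrum (𝓞 F) // Sm y v} → F) → HeightOneSpectrum (𝓞 F) → F,
        ∀ t (v : {v : HeightOneSpectrum (𝓞 F) // Sm y v}), ext t v.1 = t v :=
      ⟨fun t v => if h : Sm y v then t ⟨v, h⟩ else 1, fun t v => dif_pos v.2⟩
    have hap : ∀ t : {v : HeightOneSpectrum (𝓞 F) // Sm y v} → F, ∃ e : F, t ∈ Fintype.piFinset Bf →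
        e ≠ 0 ∧ ∀ v : {v : HeightOneSpectrum (𝓞 F) // Sm y v}, Lpw p v.1 (e / t v) := by
      intro t
      by_cases ht : t ∈ Fintype.piFinset Bf
      · obtain ⟨e, he, h⟩ := apx_all hB p hfin.toFinset (ext t) (fun v hv => by
          have hv' : Sm y v := (hfin.mem_toFinset.1 hv)
          rw [hext t ⟨v, hv'⟩]
          exact hL.ne v _ hv' (hBA ⟨v, hv'⟩ _ (Fintype.mem_piFinset.1 ht ⟨v, hv'⟩)))
        refine ⟨e, fun _ => ⟨he, fun v => ?_⟩⟩
        have h1 := h v.1 (hfin.mem_toFinset.2 v.2)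
        rwa [hext] at h1
      · exact ⟨1, fun h => absurd h ht⟩
    choose e he using hap
    have hcl : ∀ t : {v : HeightOneSpectrum (𝓞 F) // Sm y v} → F, ∃ x : (Fin f → ZMod p) × (Fin f → ZMod p),
        t ∈ Fintype.piFinset Bf → x ∈ E ∧ Nn p y (e t * mon r x.1 * mon u x.2) := by
      intro t
      by_cases ht : t ∈ Fintype.piFinset Bf
      · obtain ⟨he0, he1⟩ := he t ht
        obtain ⟨x, hx, -⟩ := B.cls (e t) he0
        refine ⟨x, fun _ => ⟨(hE (e t) x he0 hx).2 fun v hv => ?_, hx⟩⟩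
        have h1 := hBA ⟨v, hv⟩ _ (Fintype.mem_piFinset.1 ht ⟨v, hv⟩)
        have h2 := hL.mul v _ _ hv h1 (hL.pow v _ hv (he1 ⟨v, hv⟩))
        have h0 := hL.ne v _ hv h1
        have h3 : t ⟨v, hv⟩ * (e t / t ⟨v, hv⟩) = e t := by field_simp
        rwa [h3] at h2
      · exact ⟨0, fun h => absurd h ht⟩
    choose x hx using hcl
    have hinj : ∀ t ∈ Fintype.piFinset Bf, ∀ t' ∈ Fintype.piFinset Bf, x t = x t' → t = t' := by
      intro t ht t' ht' hxx
      have h1 := (hx t ht).2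
      have h2 := (hx t' ht').2
      rw [← hxx] at h2
      have h3 := cls_div hB B (he t' ht').1 h1 h2
      funext v
      by_contra hne
      refine hBd v (t v) (Fintype.mem_piFinset.1 ht v) (t' v) (Fintype.mem_piFinset.1 ht' v) hne ?_
      have h4 := (he t ht).2 v
      have h5 := (he t' ht').2 v
      have h6 := lpw_mul hB (lpw_mul hB (h3.2 v.1 v.2) (lpw_inv hB h4)) h5
      have n1 := (he t ht).1
      have n2 := (he t' ht').1
      have n3 := hL.ne v.1 _ v.2 (hBA v _ (Fintype.mem_piFinset.1 ht v))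
      have n4 := hL.ne v.1 _ v.2 (hBA v _ (Fintype.mem_piFinset.1 ht' v))
      have h7 : e t / e t' * (e t / t v)⁻¹ * (e t' / t' v) = t v / t' v := by
        field_simp
      rwa [h7] at h6
    have hcard : (Fintype.piFinset Bf).card ≤ Nat.card E := by
      rw [← Nat.card_eq_finsetCard]
      refine Nat.card_le_card_of_injective (fun t : (Fintype.piFinset Bf) => (⟨x t.1, (hx t.1 t.2).1⟩ : E)) ?_
      intro t t' h
      have h1 : x t.1 = x t'.1 := congrArg Subtype.val h
      exact Subtype.ext (hinj t.1 t.2 t'.1 t'.2 h1)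
    refine le_trans ?_ hcard
    rw [Fintype.card_piFinset]
    have h1 : ∏ v : {v : HeightOneSpectrum (𝓞 F) // Sm y v}, p ^ (c v.1 + 1) ≤ ∏ v, (Bf v).card :=
      Finset.prod_le_prod (fun v _ => Nat.zero_le _) fun v _ => hBc v
    refine le_trans ?_ h1
    rw [Finset.prod_pow_eq_pow_sum, Finset.sum_add_distrib]
    have hp : p.Prime := Fact.out
    refine Nat.pow_le_pow_right hp.pos ?_
    have h2 : ∑ᶠ v, c v = ∑ v : {v : HeightOneSpectrum (𝓞 F) // Sm y v}, c v.1 := by
      rw [finsum_eq_sum_of_support_subset (s := hfin.toFinset) c (by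
        intro v hv
        rw [hfin.coe_toFinset]
        by_contra h
        exact hv (hL.zero v h))]
      exact Finset.sum_subtype hfin.toFinset (fun v => hfin.mem_toFinset) c
    have h3 : ∑ _v : {v : HeightOneSpectrum (𝓞 F) // Sm y v}, 1 = nS F y := by
      rw [Finset.sum_const, smul_eq_mul, mul_one, Finset.card_univ, ← Nat.card_eq_fintype_card]
      rfl
    rw [← h2, h3]
    omega

end

end Pool.Agent.Q38.EN
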