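import Pool.Agent.Q283.EN.Stm2
import Pool.Agent.Q285.LK.CPL
import Pool.Agent.Q285.CE.EDD

/-!
# Project EN, job IDX3: the number of the local classes of the cubic twists
-/

set_option autoImplicit false

namespace Pool.Agent.Q38.EN

open NumberField IsDedekindDomain
open WeierstrassCurve (Affine.Point.some Affine.Point.some_ne_zero Affine.Point.some.injEq)
open Pool.Agent.Q7.LK Pool.Agent.Q7.CE Pool.Agent.Q285.CE Pool.Agent.Q285.LK Pool.Agent.Y682
open Pool.Agent.TH841.SH.D (Pt act)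
open Pool.Agent.Q283.EN (S_AEC S_TH3 S_LIXG S_VAL S_IDX3 EG)

/-- every class of the completion modulo `p`-th powers is the class of an element of the field -/
theorem exists_cls {F : Type} [Field F] [NumberField F] (v : HeightOneSpectrum (𝓞 F)) {p : ℕ}
    (hp : 2 ≤ p) {a : v.adicCompletion F} (ha : a ≠ 0) :
    ∃ b : F, b ≠ 0 ∧ ∃ s : v.adicCompletion F, s ≠ 0 ∧ (b : v.adicCompletion F) = a * s ^ p := by
  have hp0 : (p : v.adicCompletion F) ≠ 0 := by
    have e : (p : v.adicCompletion F) = algebraMap F _ (p : F) := by rw [map_natCast]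
    rw [e]
    exact (map_ne_zero _).2 (by exact_mod_cast (show p ≠ 0 by omega))
  have hp2 : vv v ((p : v.adicCompletion F) ^ 2) ≠ 0 :=
    (Valuation.ne_zero_iff _).2 (pow_ne_zero 2 hp0)
  have hva : vv v a ≠ 0 := (Valuation.ne_zero_iff _).2 ha
  obtain ⟨b, hb⟩ := exists_approx v a (vv v ((p : v.adicCompletion F) ^ 2) * vv v a)
    (mul_ne_zero hp2 hva)
  have h1 : vv v ((algebraMap F (v.adicCompletion F) b - a) / a) < vv v ((p : v.adicCompletion F) ^ 2) := by
    rw [map_div₀]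
    exact (div_lt_iff₀ (zero_lt_iff.2 hva)).2 hb
  have h2 : vv v ((p : v.adicCompletion F) ^ 2) ≤ 1 := by
    rw [map_pow]
    exact pow_le_one' (vv_nat v p) 2
  obtain ⟨y, hy⟩ := exists_proot v hp _ h1
  have h3 : a * y ^ p = algebraMap F (v.adicCompletion F) b := by
    rw [hy]
    field_simp
    ring
  have hb0 : algebraMap F (v.adicCompletion F) b ≠ 0 := by
    intro h0
    rw [h0, zero_sub, neg_div, div_self ha, Valuation.map_neg, map_one] at h1
    exact absurd (h1.trans_le h2) (lt_irrefl _)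
  refine ⟨b, fun h => hb0 (by rw [h, map_zero]), y, ?_, ?_⟩
  · rintro rfl
    apply hb0
    rw [← h3, zero_pow (by omega), mul_zero]
  · rw [cpl_coe, h3]

/-- a number times the cube of a suitable positive integer is integral -/
theorem exists_int {F : Type} [Field F] [NumberField F] (D : F) :
    ∃ n : ℕ, n ≠ 0 ∧ IsIntegral ℤ (D * (n : F) ^ 3) := by
  have h0 : _root_.IsAlgebraic ℤ D := (IsFractionRing.isAlgebraic_iff ℤ ℚ F).2 (Algebra.IsAlgebraic.isAlgebraic D)
  obtain ⟨m, hm0, hm⟩ := h0.exists_integral_multiple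
  refine ⟨m.natAbs, Int.natAbs_ne_zero.2 hm0, ?_⟩
  have hn : IsIntegral ℤ ((m.natAbs : ℕ) : F) := by
    have e : ((m.natAbs : ℕ) : F) = algebraMap ℤ F (m.natAbs : ℤ) := by simp
    rw [e]
    exact isIntegral_algebraMap
  rcases Int.natAbs_eq m with h | h
  · have e : D * ((m.natAbs : ℕ) : F) ^ 3 = (m • D) * ((m.natAbs : ℕ) : F) ^ 2 := by
      have e1 : m • D = ((m.natAbs : ℕ) : F) * D := by
        have h' := congrArg (Int.cast : ℤ → F) h
        rw [Int.cast_natCast] at h'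
        rw [zsmul_eq_mul, h']
      rw [e1]
      ring
    rw [e]
    exact hm.mul (hn.pow 2)
  · have e : D * ((m.natAbs : ℕ) : F) ^ 3 = -((m • D) * ((m.natAbs : ℕ) : F) ^ 2) := by
      have e1 : m • D = -((m.natAbs : ℕ) : F) * D := by
        have h' := congrArg (Int.cast : ℤ → F) h
        rw [Int.cast_neg, Int.cast_natCast] at h'
        rw [zsmul_eq_mul, h']
      rw [e1]
      ring
    rw [e]
    exact (hm.mul (hn.pow 2)).neg

theorem idx3 (hBAS : S_BAS) (hCPL : S_CPL) (hELOC : S_ELOC) (hFEND : S_FEND) (hAEC : S_AEC)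
    (hTH3 : S_TH3) (hLIXG : S_LIXG) (hVAL : S_VAL) : S_IDX3 := by
  intro F _ _ ω hω v D1 hD1
  classical
  have hf3 : Fact (Nat.Prime 3) := ⟨Nat.prime_three⟩
  obtain ⟨n, hn, hint⟩ := exists_int D1
  have hn' : (n : F) ≠ 0 := by exact_mod_cast hn
  have hD : D1 * (n : F) ^ 3 ≠ 0 := mul_ne_zero hD1 (pow_ne_zero 3 hn')
  suffices h : ∃ B : Finset F, 3 ^ (dv 3 v / 2 + 1) ≤ B.card ∧
      (∀ b ∈ B, AE v (D1 * (n : F) ^ 3) b) ∧ ∀ b ∈ B, ∀ b' ∈ B, b ≠ b' → ¬ Lpw 3 v (b / b') by
    obtain ⟨B, h1, h2, h3⟩ := h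
    refine ⟨B, h1, fun b hb => ?_, h3⟩
    have h4 := (hELOC F v (D1 * (n : F) ^ 3) hD).2.1 (((n : F)⁻¹) ^ 3) b
      ((hBAS 3 F v).2.2.1 _ (inv_ne_zero hn')) (h2 b hb)
    have e : D1 * (n : F) ^ 3 * ((n : F)⁻¹) ^ 3 = D1 := by field_simp
    rwa [e] at h4
  generalize D1 * (n : F) ^ 3 = D at hint hD
  have hDK : algebraMap F (v.adicCompletion F) D ≠ 0 := (map_ne_zero _).2 hD
  have hcK : CharZero (v.adicCompletion F) :=
    charZero_of_injective_algebraMap (algebraMap F (v.adicCompletion F)).injective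
  obtain ⟨θ, hθ1, hθ2, hθ3⟩ := hTH3 F ω D hω hD
  obtain ⟨e, he, hN⟩ := (hVAL 3 F ω hω (fun h => absurd h (by norm_num))).1 v
  -- the kernel
  have g0 : ((ED D).baseChange (v.adicCompletion F)).toAffine.Nonsingular 0 0 := by
    apply (isD_base D (v.adicCompletion F)).nons hDK
    ring
  have g1 : ((ED D).baseChange (v.adicCompletion F)).toAffine.Nonsingular 0
      (-algebraMap F (v.adicCompletion F) D) := by
    apply (isD_base D (v.adicCompletion F)).nons hDK
    ring
  obtain ⟨T0, hT0⟩ : ∃ T : Pt (ED D) (v.adicCompletion F), T = Affine.Point.some 0 0 g0 := ⟨_, rfl⟩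
  obtain ⟨T1, hT1⟩ : ∃ T : Pt (ED D) (v.adicCompletion F), T = Affine.Point.some 0 _ g1 := ⟨_, rfl⟩
  have n01 : (0 : Pt (ED D) (v.adicCompletion F)) ≠ T0 := by
    rw [hT0]
    exact (Affine.Point.some_ne_zero _).symm
  have n02 : (0 : Pt (ED D) (v.adicCompletion F)) ≠ T1 := by
    rw [hT1]
    exact (Affine.Point.some_ne_zero _).symm
  have n12 : T0 ≠ T1 := by
    rw [hT0, hT1]
    intro h
    have h' := (Affine.Point.some.injEq _ _ _ _ _ _).mp h
    exact hDK (neg_eq_zero.1 h'.2.symm)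
  have hv1 : v.valuation F D ≤ 1 := by
    have := v.valuation_le_one (K := F) (⟨D, hint⟩ : 𝓞 F)
    exact this
  have hK0 : ∀ P ∈ ({0, T0, T1} : Finset (Pt (ED D) (v.adicCompletion F))),
      θ (v.adicCompletion F) P = 0 := by
    intro P hP
    rw [Finset.mem_insert, Finset.mem_insert, Finset.mem_singleton] at hP
    rcases hP with rfl | rfl | rfl
    · exact hθ2 _ _ (Or.inl rfl)
    · exact hθ2 _ _ (Or.inr ⟨_, g0, hT0⟩)
    · exact hθ2 _ _ (Or.inr ⟨_, g1, hT1⟩)
  obtain ⟨M, hM1, hM2⟩ := hLIXG F v D 0 hint isIntegral_zero (by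
      rw [zero_pow three_ne_zero, mul_zero, zero_add]
      exact mul_ne_zero (by norm_num) (pow_ne_zero 4 hD)) (θ (v.adicCompletion F)) e 1 (by
    intro x y h hx
    have hx0 : x ≠ 0 := by
      rintro rfl
      rw [map_zero] at hx
      exact absurd hx (not_le.2 (WithZero.exp_pos))
    obtain ⟨X, Y, h', e1, e2⟩ := hθ3 (v.adicCompletion F) x y h hx0
    refine ⟨X, Y, h', e1, ?_⟩
    have hvx : vv v x ≠ 0 := (Valuation.ne_zero_iff _).2 hx0
    have h1x : 1 < vv v x := by
      refine lt_of_lt_of_le ?_ hx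
      rw [← WithZero.exp_zero]
      exact WithZero.exp_lt_exp.2 (by norm_num)
    have h3 : vv v (x ^ 3 + algebraMap F (v.adicCompletion F) D ^ 2) = vv v x ^ 3 := by
      rw [← map_pow (vv v)]
      apply Valuation.map_add_eq_of_lt_left
      rw [map_pow (vv v), map_pow (vv v), vv_coe]
      calc v.valuation F D ^ 2 ≤ 1 := pow_le_one' hv1 2
        _ < vv v x ^ 3 := one_lt_pow₀ h1x three_ne_zero
    have h4 : vv v (X * (-3 * algebraMap F (v.adicCompletion F) ω * x ^ 2)) =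
        vv v X * (WithZero.exp (-(2 * (e : ℤ))) * vv v x ^ 2) := by
      have e3 : vv v (-3 : v.adicCompletion F) = WithZero.exp (-(2 * (e : ℤ))) := by
        rw [Valuation.map_neg, ← he, ← vv_coe]
        congr 1
        rw [map_natCast]
        norm_num
      have e4 : vv v (algebraMap F (v.adicCompletion F) ω) = 1 := by
        have e5 : vv v (algebraMap F (v.adicCompletion F) ω) ^ 3 = 1 := by
          rw [← map_pow, ← map_pow, hω.pow_eq_one, map_one, map_one]
        rcases lt_trichotomy (vv v (algebraMap F (v.adicCompletion F) ω)) 1 with h6 | h6 | h6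
        · exact absurd e5 (pow_lt_one₀ zero_le h6 three_ne_zero).ne
        · exact h6
        · exact absurd e5 (one_lt_pow₀ h6 three_ne_zero).ne'
      rw [map_mul, map_mul, map_mul, map_pow, e3, e4, mul_one]
    rw [e2, h3] at h4
    have h5 : vv v x = vv v X * WithZero.exp (-(2 * (e : ℤ))) := by
      apply mul_right_cancel₀ (pow_ne_zero 2 hvx)
      rw [mul_assoc, ← h4]
      exact (pow_succ' _ _).symm
    change WithZero.exp (2 * (e : ℤ)) * vv v x ≤ vv v X
    rw [h5, mul_comm (vv v X), ← mul_assoc, ← WithZero.exp_add, add_neg_cancel, WithZero.exp_zero, one_mul])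
    ({0, T0, T1} : Finset (Pt (ED D) (v.adicCompletion F))) hK0
  have hc3 : ({0, T0, T1} : Finset (Pt (ED D) (v.adicCompletion F))).card = 3 :=
    Finset.card_eq_three.2 ⟨0, T0, T1, n01, n02, n12, rfl⟩
  -- the classes
  obtain ⟨_, _, -, -, -, hcl, -⟩ := hFEND F ω D hω hD
  have hb : ∀ P : Pt (ED D) (v.adicCompletion F), ∃ b : F, b ≠ 0 ∧
      Cls D (v.adicCompletion F) P (b : v.adicCompletion F) := by
    intro P
    obtain ⟨a, ha⟩ := (hcl (v.adicCompletion F) P).1
    obtain ⟨b, hb0, s, hs0, hs⟩ := exists_cls v (p := 3) (by norm_num) ha.1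
    refine ⟨b, hb0, ?_⟩
    rw [hs]
    exact (hcl (v.adicCompletion F) P).2.1 a s ha hs0
  choose f hf0 hf using hb
  have hsep : ∀ P ∈ M, ∀ Q ∈ M, P ≠ Q → ¬ Lpw 3 v (f P / f Q) := by
    intro P hP Q hQ hPQ hL
    obtain ⟨-, s, hs⟩ := (hCPL 3 F v _).1 hL
    rw [cpl_coe, map_div₀, ← cpl_coe, ← cpl_coe] at hs
    obtain ⟨R, hR⟩ := hθ1 (v.adicCompletion F) P Q _ _ s (hf P) (hf Q) hs
    exact hM2 P hP Q hQ hPQ R hR
  have hone : Lpw 3 v (1 : F) := by
    have := (hBAS 3 F v).2.2.1 1 one_ne_zero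
    rwa [one_pow] at this
  refine ⟨M.image f, ?_, ?_, ?_⟩
  · rw [Finset.card_image_of_injOn, pow_succ, mul_comm, ← hN, ← hc3]
    · exact hM1
    · intro P hP Q hQ hPQ
      by_contra hne
      apply hsep P hP Q hQ hne
      have hPQ' : f P = f Q := hPQ
      rw [hPQ', div_self (hf0 Q)]
      exact hone
  · intro b hb
    obtain ⟨P, -, rfl⟩ := Finset.mem_image.1 hb
    exact (hAEC F v D _ hD (hf0 P)).2 ⟨P, hf P⟩
  · intro b hb b' hb' hne
    obtain ⟨P, hP, rfl⟩ := Finset.mem_image.1 hb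
    obtain ⟨Q, hQ, rfl⟩ := Finset.mem_image.1 hb'
    exact hsep P hP Q hQ fun h => hne (by rw [h])

end Pool.Agent.Q38.EN
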